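import Pool.Agent.X19.SS.Stm

/-!
# Part G for MP_467638_an: Gaussian noise adds
-/

set_option autoImplicit false

open MeasureTheory ProbabilityTheory Filter Topology
open scoped ENNReal

namespace Pool.Agent.X193.SS

open Pool.Agent.X19.SS

section one

variable {K : Type} [RCLike K] [MeasurableSpace K] [BorelSpace K]

omit [MeasurableSpace K] [BorelSpace K] in
/-- the parallelogram law in `ℝ≥0∞` -/
lemma para (b c : K) : ‖b + c‖ₑ ^ 2 + ‖b - c‖ₑ ^ 2 = 2 * ‖b‖ₑ ^ 2 + 2 * ‖c‖ₑ ^ 2 := by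
  have h := parallelogram_law_with_norm ℝ b c
  have h2 : ‖b + c‖ ^ 2 + ‖b - c‖ ^ 2 = 2 * ‖b‖ ^ 2 + 2 * ‖c‖ ^ 2 := by nlinarith [h]
  simp only [← ofReal_norm, ← ENNReal.ofReal_pow (norm_nonneg _)]
  rw [← ENNReal.ofReal_add (by positivity) (by positivity), h2,
    ENNReal.ofReal_add (by positivity) (by positivity),
    ENNReal.ofReal_mul (by norm_num), ENNReal.ofReal_mul (by norm_num)]
  simp

/-- the symmetry of the standard Gaussian -/
lemma map_neg : (stdGaussian K).map (fun x => -x) = stdGaussian K := by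
  exact stdGaussian_map (E := K) (F := K) (LinearIsometryEquiv.neg ℝ)

lemma one_coord (hA2 : S_A2) (b u : K) :
    ∫⁻ x, ‖b + u * x‖ₑ ^ 2 ∂(stdGaussian K) =
      ‖b‖ₑ ^ 2 + (Module.finrank ℝ K : ℝ≥0∞) * ‖u‖ₑ ^ 2 := by
  have hm : Measurable fun x : K => ‖b + u * x‖ₑ ^ 2 :=
    ((measurable_const.add (measurable_const.mul measurable_id)).enorm).pow_const 2
  have hm' : Measurable fun x : K => ‖b - u * x‖ₑ ^ 2 :=
    ((measurable_const.sub (measurable_const.mul measurable_id)).enorm).pow_const 2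
  have h1 : ∫⁻ x, ‖b + u * x‖ₑ ^ 2 ∂(stdGaussian K) =
      ∫⁻ x, ‖b - u * x‖ₑ ^ 2 ∂(stdGaussian K) := by
    conv_lhs => rw [← map_neg]
    rw [lintegral_map hm measurable_neg]
    refine lintegral_congr fun x => ?_
    rw [mul_neg, ← sub_eq_add_neg]
  have h2 : 2 * ∫⁻ x, ‖b + u * x‖ₑ ^ 2 ∂(stdGaussian K) =
      2 * (‖b‖ₑ ^ 2 + (Module.finrank ℝ K : ℝ≥0∞) * ‖u‖ₑ ^ 2) := by
    calc 2 * ∫⁻ x, ‖b + u * x‖ₑ ^ 2 ∂(stdGaussian K)
        = ∫⁻ x, ‖b + u * x‖ₑ ^ 2 ∂(stdGaussian K) + ∫⁻ x, ‖b - u * x‖ₑ ^ 2 ∂(stdGaussian K) := by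
          rw [two_mul]; nth_rewrite 2 [h1]; rfl
      _ = ∫⁻ x, (‖b + u * x‖ₑ ^ 2 + ‖b - u * x‖ₑ ^ 2) ∂(stdGaussian K) := by
          rw [lintegral_add_left hm]
      _ = ∫⁻ x, (2 * ‖b‖ₑ ^ 2 + 2 * ‖u‖ₑ ^ 2 * ‖x‖ₑ ^ 2) ∂(stdGaussian K) := by
          refine lintegral_congr fun x => ?_
          rw [para, enorm_mul, mul_pow, mul_assoc]
      _ = 2 * ‖b‖ₑ ^ 2 + 2 * ‖u‖ₑ ^ 2 * ∫⁻ x, ‖x‖ₑ ^ 2 ∂(stdGaussian K) := by
          rw [lintegral_add_left measurable_const, lintegral_const, measure_univ, mul_one,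
            lintegral_const_mul _ (measurable_enorm.pow_const 2)]
      _ = 2 * (‖b‖ₑ ^ 2 + (Module.finrank ℝ K : ℝ≥0∞) * ‖u‖ₑ ^ 2) := by
          rw [hA2 K]; ring
  exact (ENNReal.mul_right_inj (by norm_num) (by norm_num)).1 h2

lemma vec (hA2 : S_A2) (r : ℕ) : ∀ (u : Fin r → K) (b : K),
    ∫⁻ x, ‖b + ∑ j, u j * x j‖ₑ ^ 2 ∂(Measure.pi (fun _ : Fin r => stdGaussian K)) =
      ‖b‖ₑ ^ 2 + (Module.finrank ℝ K : ℝ≥0∞) * nsq u := by
  induction r with
  | zero =>
    intro u b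
    simp [nsq]
  | succ r ih =>
    intro u b
    have hmp := (measurePreserving_piFinSuccAbove (fun _ : Fin (r + 1) => stdGaussian K) 0).symm
    have hm : Measurable fun x : Fin (r + 1) → K => ‖b + ∑ j, u j * x j‖ₑ ^ 2 := by
      refine Measurable.pow_const (Measurable.enorm (measurable_const.add ?_)) 2
      exact Finset.measurable_sum _ fun j _ => measurable_const.mul (measurable_pi_apply j)
    rw [← hmp.lintegral_comp hm]
    rw [lintegral_prod_symm' (μ := stdGaussian K) (ν := Measure.pi fun _ : Fin r => stdGaussian K)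
      (fun a => ‖b + ∑ j, u j * ((MeasurableEquiv.piFinSuccAbove (fun _ => K) 0).symm a) j‖ₑ ^ 2)
      (hm.comp hmp.measurable)]
    have hin : ∀ y : Fin r → K,
        ∫⁻ x, ‖b + ∑ j, u j * ((MeasurableEquiv.piFinSuccAbove (fun _ => K) 0).symm (x, y)) j‖ₑ ^ 2
          ∂(stdGaussian K) =
        ‖b + ∑ j, u (Fin.succ j) * y j‖ₑ ^ 2 + (Module.finrank ℝ K : ℝ≥0∞) * ‖u 0‖ₑ ^ 2 := by
      intro y
      rw [← one_coord hA2]
      refine lintegral_congr fun x => ?_
      have e : ((MeasurableEquiv.piFinSuccAbove (fun _ => K) 0).symm (x, y) : Fin (r + 1) → K) =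
          Fin.cons (α := fun _ => K) x y := Fin.insertNth_zero' x y
      rw [e, Fin.sum_univ_succ]
      simp only [Fin.cons_zero, Fin.cons_succ]
      rw [show b + (u 0 * x + ∑ i, u (Fin.succ i) * y i) =
        b + ∑ j, u (Fin.succ j) * y j + u 0 * x by ring]
    simp only [hin]
    rw [lintegral_add_right _ measurable_const, ih, lintegral_const, measure_univ, mul_one, add_assoc,
      ← mul_add]
    congr 2
    rw [nsq, nsq, Fin.sum_univ_succ, add_comm]

end one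

theorem t_G (hA2 : S_A2) : S_G := by
  intro K _ _ _ r q u a
  have hco : ∀ i : Fin q, MeasurePreserving (fun G : Fin r → Fin q → K => fun j => G j i)
      (Measure.pi (fun _ : Fin r => gK K (Fin q))) (Measure.pi (fun _ : Fin r => stdGaussian K)) := by
    intro i
    exact measurePreserving_pi (fun _ : Fin r => gK K (Fin q)) (fun _ : Fin r => stdGaussian K)
      (f := fun _ x => x i) (fun _ => measurePreserving_eval (fun _ : Fin q => stdGaussian K) i)
  have hm : ∀ i : Fin q, Measurable fun x : Fin r → K => ‖a i + ∑ j, u j * x j‖ₑ ^ 2 := by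
    intro i
    refine Measurable.pow_const (Measurable.enorm (measurable_const.add ?_)) 2
    exact Finset.measurable_sum _ fun j _ => measurable_const.mul (measurable_pi_apply j)
  have hpt : ∀ G : Fin r → Fin q → K, nsq (a + ∑ j, u j • G j) =
      ∑ i, ‖a i + ∑ j, u j * G j i‖ₑ ^ 2 := by
    intro G
    simp [nsq, Finset.sum_apply]
  simp only [hpt]
  have hm' : ∀ i ∈ (Finset.univ : Finset (Fin q)),
      Measurable fun G : Fin r → Fin q → K => ‖a i + ∑ j, u j * G j i‖ₑ ^ 2 :=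
    fun i _ => (hm i).comp (hco i).measurable
  rw [lintegral_finsetSum _ hm']
  have hi : ∀ i : Fin q, ∫⁻ G : Fin r → Fin q → K, ‖a i + ∑ j, u j * G j i‖ₑ ^ 2
      ∂(Measure.pi (fun _ : Fin r => gK K (Fin q))) =
      ‖a i‖ₑ ^ 2 + (Module.finrank ℝ K : ℝ≥0∞) * nsq u := by
    intro i
    rw [← vec hA2 r u (a i), ← (hco i).lintegral_comp (hm i)]
  simp only [hi]
  rw [Finset.sum_add_distrib, Finset.sum_const, Finset.card_univ, Fintype.card_fin, nsmul_eq_mul]
  unfold nsq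
  ring

end Pool.Agent.X193.SS
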